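import Mathlib

/-!
# Lobsters as unit disk graphs (MP_044a76_lc): small degrees suffice, a packing bound

The plane is `ℂ`.
-/

set_option autoImplicit false

namespace Pool.Agent.Lob

open MeasureTheory

/-- Unit disk graph: closed disks of radius 1 in the plane, two vertices are adjacent iff their disks meet. -/
def IsUnitDiskGraph {V : Type} (G : SimpleGraph V) : Prop :=
  ∃ c : V → ℂ, ∀ u v : V, u ≠ v →
    (G.Adj u v ↔ (Metric.closedBall (c u) 1 ∩ Metric.closedBall (c v) 1).Nonempty)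

/-- `s 0, …, s n` is a path of `G` and every vertex has distance at most 2 from a vertex of this path. -/
def IsSpine {V : Type} (G : SimpleGraph V) (n : ℕ) (s : ℕ → V) : Prop :=
  (∀ i j : ℕ, i ≤ n → j ≤ n → s i = s j → i = j) ∧ (∀ i < n, G.Adj (s i) (s (i + 1))) ∧
    ∀ v : V, ∃ i ≤ n, v = s i ∨ G.Adj v (s i) ∨ ∃ w, G.Adj v w ∧ G.Adj w (s i)

/-- A lobster: a tree with a path such that every vertex has distance at most 2 from it. -/
def IsLobster {V : Type} (G : SimpleGraph V) : Prop :=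
  G.IsTree ∧ ∃ (n : ℕ) (s : ℕ → V), IsSpine G n s

/-! ## Part 1: trees -/

/-- any two points of `C` are joined by a walk inside `C` -/
def ConnIn {V : Type} (G : SimpleGraph V) (C : Set V) : Prop :=
  ∀ x ∈ C, ∀ y ∈ C, ∃ w : G.Walk x y, ∀ z ∈ w.support, z ∈ C

-- BEGIN uni
/-- If `x ≠ y`: the path `toPath` of the walk from `x` to `y` inside `C` and the path `x, v, y` are different (`SimpleGraph.IsAcyclic.path_unique`). -/
theorem uniq_nbr {V : Type} {G : SimpleGraph V} (hG : G.IsAcyclic) {C : Set V} (hC : ConnIn G C) {v x y : V}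
    (hv : v ∉ C) (hx : x ∈ C) (hy : y ∈ C) (h1 : G.Adj v x) (h2 : G.Adj v y) : x = y := by
  classical
  by_contra hne
  obtain ⟨w, hw⟩ := hC x hx y hy
  have hp : (SimpleGraph.Walk.cons h1.symm (SimpleGraph.Walk.cons h2 SimpleGraph.Walk.nil)).IsPath := by
    rw [SimpleGraph.Walk.cons_isPath_iff, SimpleGraph.Walk.cons_isPath_iff]
    refine ⟨⟨SimpleGraph.Walk.IsPath.nil, ?_⟩, ?_⟩
    · simp only [SimpleGraph.Walk.support_nil, List.mem_singleton]
      exact h2.ne
    · simp only [SimpleGraph.Walk.support_cons, SimpleGraph.Walk.support_nil, List.mem_cons,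
        List.not_mem_nil, or_false, not_or]
      exact ⟨h1.symm.ne, hne⟩
  have he : w.toPath = ⟨_, hp⟩ := (hG.subsingleton_path x y).elim _ _
  have hv' : v ∈ (w.toPath : G.Walk x y).support := by
    rw [he]
    simp
  exact hv (hw v (w.support_toPath_subset_support hv'))
-- END uni

-- BEGIN cex
/-- Every point of `C ∪ D` is joined to a point of `C` by a walk of length at most 1 inside `C ∪ D`; append walks. -/
theorem conn_ext {V : Type} {G : SimpleGraph V} {C D : Set V} (hC : ConnIn G C)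
    (hD : ∀ d ∈ D, ∃ c ∈ C, G.Adj d c) : ConnIn G (C ∪ D) := by
  have key : ∀ x ∈ C ∪ D, ∃ c ∈ C, ∃ w : G.Walk x c, ∀ z ∈ w.support, z ∈ C ∪ D := by
    intro x hx
    rcases hx with hx | hx
    · refine ⟨x, hx, SimpleGraph.Walk.nil, fun z hz => ?_⟩
      rw [SimpleGraph.Walk.support_nil, List.mem_singleton] at hz
      rw [hz]
      exact Or.inl hx
    · obtain ⟨c, hc, hadj⟩ := hD x hx
      refine ⟨c, hc, SimpleGraph.Walk.cons hadj SimpleGraph.Walk.nil, fun z hz => ?_⟩
      rw [SimpleGraph.Walk.support_cons, SimpleGraph.Walk.support_nil, List.mem_cons,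
        List.mem_singleton] at hz
      rcases hz with hz | hz
      · rw [hz]
        exact Or.inr hx
      · rw [hz]
        exact Or.inl hc
  intro x hx y hy
  obtain ⟨c, hc, w1, hw1⟩ := key x hx
  obtain ⟨d, hd, w2, hw2⟩ := key y hy
  obtain ⟨w, hw⟩ := hC c hc d hd
  refine ⟨(w1.append w).append w2.reverse, fun z hz => ?_⟩
  rw [SimpleGraph.Walk.mem_support_append_iff, SimpleGraph.Walk.mem_support_append_iff,
    SimpleGraph.Walk.support_reverse, List.mem_reverse] at hz
  rcases hz with (hz | hz) | hz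
  · exact hw1 z hz
  · exact Or.inl (hw z hz)
  · exact hw2 z hz
-- END cex

-- BEGIN csp
/-- Induction on `j` from `i` with `conn_ext` (`D = {s (j + 1)}`). -/
theorem conn_spine {V : Type} {G : SimpleGraph V} {n : ℕ} {s : ℕ → V} (h : ∀ i < n, G.Adj (s i) (s (i + 1)))
    (i j : ℕ) (hij : i ≤ j) (hj : j ≤ n) : ConnIn G {v | ∃ k, i ≤ k ∧ k ≤ j ∧ v = s k} := by
  induction j, hij using Nat.le_induction with
  | base =>
    rintro x ⟨k, hk1, hk2, rfl⟩ y ⟨l, hl1, hl2, rfl⟩
    obtain rfl : k = i := le_antisymm hk2 hk1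
    obtain rfl : l = k := le_antisymm hl2 hl1
    refine ⟨SimpleGraph.Walk.nil, fun z hz => ?_⟩
    rw [SimpleGraph.Walk.support_nil, List.mem_singleton] at hz
    exact ⟨l, le_rfl, le_rfl, hz⟩
  | succ m hm ih =>
    have h1 := ih (by omega)
    have h2 : {v | ∃ k, i ≤ k ∧ k ≤ m + 1 ∧ v = s k} =
        {v | ∃ k, i ≤ k ∧ k ≤ m ∧ v = s k} ∪ {s (m + 1)} := by
      ext v
      simp only [Set.mem_ofPred_eq, Set.mem_union, Set.mem_singleton_iff]
      constructor
      · rintro ⟨k, hk1, hk2, rfl⟩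
        rcases Nat.lt_or_ge k (m + 1) with hk | hk
        · exact Or.inl ⟨k, hk1, by omega, rfl⟩
        · right
          rw [show k = m + 1 by omega]
      · rintro (⟨k, hk1, hk2, rfl⟩ | rfl)
        · exact ⟨k, hk1, by omega, rfl⟩
        · exact ⟨m + 1, by omega, le_rfl, rfl⟩
    rw [h2]
    refine conn_ext h1 ?_
    rintro d rfl
    exact ⟨s m, ⟨m, hm, le_rfl, rfl⟩, (h m (by omega)).symm⟩
-- END csp

/-- on the spine -/
def L0 {V : Type} (n : ℕ) (s : ℕ → V) (v : V) : Prop := ∃ k ≤ n, v = s k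

/-- off the spine, adjacent to a vertex of the spine -/
def L1 {V : Type} (G : SimpleGraph V) (n : ℕ) (s : ℕ → V) (v : V) : Prop := ¬ L0 n s v ∧ ∃ k ≤ n, G.Adj v (s k)

/-- off the spine, not adjacent to a vertex of the spine -/
def L2 {V : Type} (G : SimpleGraph V) (n : ℕ) (s : ℕ → V) (v : V) : Prop := ¬ L0 n s v ∧ ¬ ∃ k ≤ n, G.Adj v (s k)

/-- the children of `s i` -/
def Ch {V : Type} (G : SimpleGraph V) (n : ℕ) (s : ℕ → V) (i : ℕ) : Set V := {v | L1 G n s v ∧ G.Adj v (s i)}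

-- BEGIN lpa
/-- From the third clause of `IsSpine`. -/
theorem L2_parent {V : Type} {G : SimpleGraph V} {n : ℕ} {s : ℕ → V} (hs : IsSpine G n s) {v : V}
    (hv : L2 G n s v) : ∃ w, G.Adj v w ∧ L1 G n s w := by
  obtain ⟨i, hi, h | h | ⟨w, h1, h2⟩⟩ := hs.2.2 v
  · exact absurd ⟨i, hi, h⟩ hv.1
  · exact absurd ⟨i, hi, h⟩ hv.2
  · refine ⟨w, h1, ?_, i, hi, h2⟩
    rintro ⟨k, hk, rfl⟩
    exact hv.2 ⟨k, hk, h1⟩
-- END lpa

-- BEGIN sad
/-- If `i < j`: `uniq_nbr` with `v = s i` and `C = {s k | i + 1 ≤ k ≤ j}` (`conn_spine`), `x = s (i + 1)`, `y = s j`. -/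
theorem spine_adj {V : Type} {G : SimpleGraph V} (hG : G.IsAcyclic) {n : ℕ} {s : ℕ → V} (hs : IsSpine G n s)
    {i j : ℕ} (hi : i ≤ n) (hj : j ≤ n) (h : G.Adj (s i) (s j)) : i = j + 1 ∨ j = i + 1 := by
  have key : ∀ i j : ℕ, i ≤ n → j ≤ n → i < j → G.Adj (s i) (s j) → j = i + 1 := by
    intro i j hi hj hij hadj
    have hC := conn_spine hs.2.1 (i + 1) j hij hj
    have hv : s i ∉ {v | ∃ k, i + 1 ≤ k ∧ k ≤ j ∧ v = s k} := by
      rintro ⟨k, hk1, hk2, hk3⟩
      have := hs.1 i k hi (hk2.trans hj) hk3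
      omega
    have hx : s (i + 1) ∈ {v | ∃ k, i + 1 ≤ k ∧ k ≤ j ∧ v = s k} := ⟨i + 1, le_rfl, hij, rfl⟩
    have hy : s j ∈ {v | ∃ k, i + 1 ≤ k ∧ k ≤ j ∧ v = s k} := ⟨j, hij, le_rfl, rfl⟩
    have h1 : G.Adj (s i) (s (i + 1)) := hs.2.1 i (lt_of_lt_of_le hij hj)
    have h2 := uniq_nbr hG hC hv hx hy h1 hadj
    exact (hs.1 (i + 1) j (le_trans hij hj) hj h2).symm
  rcases lt_trichotomy i j with hlt | heq | hgt
  · exact Or.inr (key i j hi hj hlt h)
  · subst heq
    exact absurd h (G.loopless.irrefl (s i))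
  · exact Or.inl (key j i hj hi hgt h.symm)
-- END sad

-- BEGIN foo
/-- `uniq_nbr` with `C = {s k | 0 ≤ k ≤ n}` (`conn_spine`). -/
theorem one_foot {V : Type} {G : SimpleGraph V} (hG : G.IsAcyclic) {n : ℕ} {s : ℕ → V} (hs : IsSpine G n s)
    {v : V} (hv : ¬ L0 n s v) {i j : ℕ} (hi : i ≤ n) (hj : j ≤ n) (h1 : G.Adj v (s i)) (h2 : G.Adj v (s j)) :
    i = j := by
  have hC := conn_spine hs.2.1 0 n (Nat.zero_le n) le_rfl
  have hv' : v ∉ {v | ∃ k, 0 ≤ k ∧ k ≤ n ∧ v = s k} := by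
    rintro ⟨k, _, hk2, hk3⟩
    exact hv ⟨k, hk2, hk3⟩
  have h3 := uniq_nbr hG hC hv' ⟨i, Nat.zero_le i, hi, rfl⟩ ⟨j, Nat.zero_le j, hj, rfl⟩ h1 h2
  exact hs.1 i j hi hj h3
-- END foo

-- BEGIN nad
/-- `uniq_nbr` with `C = {s k | 0 ≤ k ≤ n} ∪ {w}` (`conn_spine`, `conn_ext`). -/
theorem no_adj_L1 {V : Type} {G : SimpleGraph V} (hG : G.IsAcyclic) {n : ℕ} {s : ℕ → V} (hs : IsSpine G n s)
    {v w : V} (hv : L1 G n s v) (hw : L1 G n s w) : ¬ G.Adj v w := by
  intro hvw
  obtain ⟨hv0, k, hk, hvk⟩ := hv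
  obtain ⟨hw0, m, hm, hwm⟩ := hw
  have hC : ConnIn G ({u | ∃ l, 0 ≤ l ∧ l ≤ n ∧ u = s l} ∪ {w}) := by
    refine conn_ext (conn_spine hs.2.1 0 n (Nat.zero_le n) le_rfl) ?_
    intro d hd
    rw [Set.mem_singleton_iff] at hd
    subst hd
    exact ⟨s m, ⟨m, Nat.zero_le m, hm, rfl⟩, hwm⟩
  have hvC : v ∉ ({u | ∃ l, 0 ≤ l ∧ l ≤ n ∧ u = s l} ∪ {w} : Set V) := by
    rintro (⟨l, _, hl, h⟩ | h)
    · exact hv0 ⟨l, hl, h⟩
    · rw [Set.mem_singleton_iff] at h
      subst h
      exact hvw.ne rfl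
  have h := uniq_nbr hG hC hvC (Or.inl ⟨k, Nat.zero_le k, hk, rfl⟩) (Or.inr rfl) hvk hvw
  exact hw0 ⟨k, hk, h.symm⟩
-- END nad

-- BEGIN onb
/-- `uniq_nbr` with `C = {u | u ≠ v} = (({s k} ∪ L1) ∪ (L2 minus v))` (`conn_spine`, `conn_ext` twice, `L2_parent`). -/
theorem one_nbr_L2 {V : Type} {G : SimpleGraph V} (hG : G.IsAcyclic) {n : ℕ} {s : ℕ → V} (hs : IsSpine G n s)
    {v w w' : V} (hv : L2 G n s v) (h : G.Adj v w) (h' : G.Adj v w') : w = w' := by
  have hC0 := conn_spine hs.2.1 0 n (Nat.zero_le n) le_rfl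
  have hC1 : ConnIn G ({v | ∃ k, 0 ≤ k ∧ k ≤ n ∧ v = s k} ∪ {u | L1 G n s u}) :=
    conn_ext hC0 fun d hd => by
      obtain ⟨k, hk, hdk⟩ := hd.2
      exact ⟨s k, ⟨k, Nat.zero_le k, hk, rfl⟩, hdk⟩
  have hC2 : ConnIn G (({v | ∃ k, 0 ≤ k ∧ k ≤ n ∧ v = s k} ∪ {u | L1 G n s u}) ∪
      {u | L2 G n s u ∧ u ≠ v}) :=
    conn_ext hC1 fun d hd => by
      obtain ⟨p, hp, hp1⟩ := L2_parent hs hd.1
      exact ⟨p, Or.inr hp1, hp⟩
  have hin : ∀ u, u ≠ v → u ∈ (({v | ∃ k, 0 ≤ k ∧ k ≤ n ∧ v = s k} ∪ {u | L1 G n s u}) ∪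
      {u | L2 G n s u ∧ u ≠ v} : Set V) := by
    intro u hu
    by_cases h0 : L0 n s u
    · obtain ⟨k, hk, hku⟩ := h0
      exact Or.inl (Or.inl ⟨k, Nat.zero_le k, hk, hku⟩)
    · by_cases h1 : ∃ k ≤ n, G.Adj u (s k)
      · exact Or.inl (Or.inr ⟨h0, h1⟩)
      · exact Or.inr ⟨⟨h0, h1⟩, hu⟩
  refine uniq_nbr hG hC2 ?_ (hin w h.ne') (hin w' h'.ne') h h'
  rintro ((⟨k, -, hk, hkv⟩ | h1) | h2)
  · exact hv.1 ⟨k, hk, hkv⟩
  · exact hv.2 h1.2
  · exact h2.2 rfl
-- END onb

/-! ## Part 2: a longest spine -/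

/-- a longest spine -/
def MaxSpine {V : Type} (G : SimpleGraph V) (n : ℕ) (s : ℕ → V) : Prop :=
  IsSpine G n s ∧ ∀ (m : ℕ) (t : ℕ → V), IsSpine G m t → m ≤ n

-- BEGIN mxs
/-- The lengths are less than `Nat.card V` (injectivity). -/
theorem exists_max {V : Type} [Finite V] {G : SimpleGraph V} (h : ∃ (n : ℕ) (s : ℕ → V), IsSpine G n s) :
    ∃ (n : ℕ) (s : ℕ → V), MaxSpine G n s := by
  classical
  have hb : ∀ n : ℕ, (∃ s : ℕ → V, IsSpine G n s) → n ≤ Nat.card V := by
    rintro n ⟨s, hs⟩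
    have hinj : Function.Injective (fun i : Fin (n + 1) => s i) := by
      intro i j hij
      exact Fin.ext (hs.1 i j (Nat.lt_succ_iff.1 i.2) (Nat.lt_succ_iff.1 j.2) hij)
    have := Nat.card_le_card_of_injective _ hinj
    rw [Nat.card_fin] at this
    omega
  obtain ⟨n0, s0, h0⟩ := h
  let P : ℕ → Prop := fun n => ∃ s : ℕ → V, IsSpine G n s
  have hP : P (Nat.findGreatest P (Nat.card V)) :=
    Nat.findGreatest_spec (P := P) (hb n0 ⟨s0, h0⟩) ⟨s0, h0⟩
  obtain ⟨s, hs⟩ := hP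
  exact ⟨_, s, hs, fun m t ht => Nat.le_findGreatest (hb m ⟨t, ht⟩) ⟨t, ht⟩⟩
-- END mxs

-- BEGIN rvm
/-- The reversed spine. -/
theorem rev_max {V : Type} {G : SimpleGraph V} {n : ℕ} {s : ℕ → V} (h : MaxSpine G n s) :
    MaxSpine G n (fun k => s (n - k)) := by
  refine ⟨⟨fun i j hi hj hij => ?_, fun i hi => ?_, fun v => ?_⟩, h.2⟩
  · have := h.1.1 (n - i) (n - j) (Nat.sub_le _ _) (Nat.sub_le _ _) hij
    omega
  · have h1 := h.1.2.1 (n - (i + 1)) (by omega)
    rw [show n - (i + 1) + 1 = n - i by omega] at h1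
    exact h1.symm
  · obtain ⟨i, hi, hv⟩ := h.1.2.2 v
    refine ⟨n - i, Nat.sub_le _ _, ?_⟩
    show v = s (n - (n - i)) ∨ G.Adj v (s (n - (n - i))) ∨ ∃ w, G.Adj v w ∧ G.Adj w (s (n - (n - i)))
    rw [show n - (n - i) = i by omega]
    exact hv
-- END rvm

-- BEGIN en1
/-- Otherwise `s 0, …, s n, c` is a spine (`fun k => if k ≤ n then s k else c`). -/
theorem end_one {V : Type} {G : SimpleGraph V} {n : ℕ} {s : ℕ → V} (h : MaxSpine G n s) {c : V}
    (hc : ¬ L0 n s c) : ¬ G.Adj (s n) c := by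
  intro hadj
  have h1 : IsSpine G (n + 1) (fun k => if k ≤ n then s k else c) := by
    obtain ⟨⟨hinj, hadj', hnear⟩, _⟩ := h
    refine ⟨?_, ?_, ?_⟩
    · intro i j hi hj hij
      by_cases h1 : i ≤ n
      · by_cases h2 : j ≤ n
        · simp only [if_pos h1, if_pos h2] at hij
          exact hinj i j h1 h2 hij
        · simp only [if_pos h1, if_neg h2] at hij
          exact absurd ⟨i, h1, hij.symm⟩ hc
      · by_cases h2 : j ≤ n
        · simp only [if_neg h1, if_pos h2] at hij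
          exact absurd ⟨j, h2, hij⟩ hc
        · omega
    · intro i hi
      by_cases h1 : i < n
      · have h2 : i ≤ n := by omega
        have h3 : i + 1 ≤ n := by omega
        simp only [if_pos h2, if_pos h3]
        exact hadj' i h1
      · have h2 : i = n := by omega
        subst h2
        have h3 : ¬ i + 1 ≤ i := by omega
        simp only [le_refl, if_true, if_neg h3]
        exact hadj
    · intro v
      obtain ⟨i, hi, hv⟩ := hnear v
      refine ⟨i, by omega, ?_⟩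
      simp only [if_pos hi]
      exact hv
  have h2 := h.2 (n + 1) _ h1
  omega
-- END en1

-- BEGIN en2
/-- Otherwise `d` is off the spine (`one_foot`) and `s 0, …, s (n - 1), c, d` is a spine: by `end_one` and `spine_adj` the only neighbour of `s n` is `s (n - 1)`. -/
theorem end_two {V : Type} {G : SimpleGraph V} (hG : G.IsAcyclic) {n : ℕ} {s : ℕ → V} (h : MaxSpine G n s)
    (hn : 1 ≤ n) {c d : V} (hc : ¬ L0 n s c) (h1 : G.Adj (s (n - 1)) c) (h2 : G.Adj c d) : d = s (n - 1) := by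
  classical
  by_contra hne
  have hs := h.1
  have hn1 : n - 1 ≤ n := Nat.sub_le n 1
  have hnn : n - 1 + 1 = n := by omega
  have hd : ¬ L0 n s d := by
    rintro ⟨k, hk, rfl⟩
    have := one_foot hG hs hc hk hn1 h2 h1.symm
    subst this
    exact hne rfl
  have hlast : ∀ v, G.Adj v (s n) → v = s (n - 1) := by
    intro v hv
    have hv0 : L0 n s v := by
      by_contra hv0
      exact end_one h hv0 hv.symm
    obtain ⟨k, hk, rfl⟩ := hv0
    rcases spine_adj hG hs hk le_rfl hv with h3 | h3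
    · omega
    · have : k = n - 1 := by omega
      rw [this]
  have hcd : c ≠ d := h2.ne
  let t : ℕ → V := fun k => if k < n then s k else if k = n then c else d
  have t1 : ∀ k, k < n → t k = s k := fun k hk => by simp only [t, if_pos hk]
  have t2 : t n = c := by simp only [t, lt_irrefl, if_false, if_true]
  have t3 : t (n + 1) = d := by
    have e1 : ¬ (n + 1 < n) := by omega
    have e2 : ¬ (n + 1 = n) := by omega
    simp only [t, if_neg e1, if_neg e2]
  have hcs : ∀ k, k ≤ n → s k ≠ c := fun k hk he => hc ⟨k, hk, he.symm⟩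
  have hds : ∀ k, k ≤ n → s k ≠ d := fun k hk he => hd ⟨k, hk, he.symm⟩
  have hsp : IsSpine G (n + 1) t := by
    refine ⟨?_, ?_, ?_⟩
    · intro i j hi hj hij
      have ci : i < n ∨ i = n ∨ i = n + 1 := by omega
      have cj : j < n ∨ j = n ∨ j = n + 1 := by omega
      rcases ci with hi' | hi' | hi' <;> rcases cj with hj' | hj' | hj'
      · rw [t1 i hi', t1 j hj'] at hij
        exact hs.1 i j hi'.le hj'.le hij
      · rw [t1 i hi', hj', t2] at hij
        exact absurd hij (hcs i hi'.le)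
      · rw [t1 i hi', hj', t3] at hij
        exact absurd hij (hds i hi'.le)
      · rw [hi', t2, t1 j hj'] at hij
        exact absurd hij.symm (hcs j hj'.le)
      · omega
      · rw [hi', t2, hj', t3] at hij
        exact absurd hij hcd
      · rw [hi', t3, t1 j hj'] at hij
        exact absurd hij.symm (hds j hj'.le)
      · rw [hi', t3, hj', t2] at hij
        exact absurd hij.symm hcd
      · omega
    · intro i hi
      have ci : i + 1 < n ∨ i + 1 = n ∨ i = n := by omega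
      rcases ci with hi' | hi' | hi'
      · rw [t1 i (by omega), t1 (i + 1) hi']
        exact hs.2.1 i (by omega)
      · have e : i = n - 1 := by omega
        rw [t1 i (by omega), hi', t2, e]
        exact h1
      · rw [hi', t2, t3]
        exact h2
    · intro v
      have hn' : n - 1 ≤ n + 1 := by omega
      have e1 : t (n - 1) = s (n - 1) := t1 (n - 1) (by omega)
      obtain ⟨i, hi, hv⟩ := hs.2.2 v
      rcases Nat.lt_or_ge i n with hlt | hge
      · refine ⟨i, by omega, ?_⟩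
        rw [t1 i hlt]
        exact hv
      · have hin : i = n := le_antisymm hi hge
        refine ⟨n - 1, hn', ?_⟩
        rw [e1]
        rw [hin] at hv
        rcases hv with hv | hv | ⟨w, hw1, hw2⟩
        · right; left
          rw [hv]
          have := hs.2.1 (n - 1) (by omega)
          rw [hnn] at this
          exact this.symm
        · left
          exact hlast v hv
        · right; left
          rw [← hlast w hw2]
          exact hw1
  have := h.2 (n + 1) t hsp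
  omega
-- END en2

-- BEGIN cch
/-- For `i = n` (`end_one`) and `i = 0` (`rev_max`, `end_one`) there are no children; otherwise `s (i - 1)`, `s (i + 1)` and the children are different neighbours of `s i`. -/
theorem card_Ch {V : Type} [Finite V] {G : SimpleGraph V} {n : ℕ} {s : ℕ → V}
    (h : MaxSpine G n s) (hd : ∀ v, (G.neighborSet v).ncard ≤ 4) {i : ℕ} (hi : i ≤ n) :
    (Ch G n s i).ncard ≤ 2 := by
  by_cases hin : i = n
  · have he : Ch G n s i = ∅ := by
      rw [Set.eq_empty_iff_forall_notMem]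
      rintro v ⟨⟨h0, -⟩, h1⟩
      rw [hin] at h1
      exact end_one h h0 h1.symm
    rw [he, Set.ncard_empty]
    exact Nat.zero_le _
  by_cases hi0 : i = 0
  · have he : Ch G n s i = ∅ := by
      rw [Set.eq_empty_iff_forall_notMem]
      rintro v ⟨⟨h0, -⟩, h1⟩
      rw [hi0] at h1
      have h2 : ¬ L0 n (fun k => s (n - k)) v := by
        rintro ⟨k, -, hk⟩
        exact h0 ⟨n - k, Nat.sub_le _ _, hk⟩
      refine end_one (rev_max h) h2 ?_
      show G.Adj (s (n - n)) v
      rw [Nat.sub_self]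
      exact h1.symm
    rw [he, Set.ncard_empty]
    exact Nat.zero_le _
  obtain ⟨hinj, hadj, -⟩ := h.1
  have ha : G.Adj (s i) (s (i + 1)) := hadj i (by omega)
  have hb : G.Adj (s i) (s (i - 1)) := by
    have h1 := hadj (i - 1) (by omega)
    rw [Nat.sub_add_cancel (by omega)] at h1
    exact h1.symm
  have hne : s (i - 1) ≠ s (i + 1) := by
    intro h1
    have := hinj (i - 1) (i + 1) (by omega) (by omega) h1
    omega
  have hsub : Ch G n s i ∪ {s (i - 1), s (i + 1)} ⊆ G.neighborSet (s i) := by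
    rintro v (hv | hv | hv)
    · exact hv.2.symm
    · rw [hv]
      exact hb
    · rw [Set.mem_singleton_iff.1 hv]
      exact ha
  have hdis : Disjoint (Ch G n s i) {s (i - 1), s (i + 1)} := by
    rw [Set.disjoint_left]
    rintro v ⟨⟨h0, -⟩, -⟩ (hv | hv)
    · exact h0 ⟨i - 1, by omega, hv⟩
    · exact h0 ⟨i + 1, by omega, Set.mem_singleton_iff.1 hv⟩
  have h1 := (Set.ncard_le_ncard hsub (Set.toFinite _)).trans (hd (s i))
  rw [Set.ncard_union_eq hdis (Set.toFinite _) (Set.toFinite _), Set.ncard_pair hne] at h1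
  omega
-- END cch

-- BEGIN nch
private theorem nch_two {V : Type} [Finite V] {S : Set V} {a b : V} (ha : a ∈ S) (hb : b ∈ S)
    (hab : a ≠ b) : 2 ≤ S.ncard := by
  have h : ({a, b} : Set V).ncard = 2 := Set.ncard_pair hab
  rw [← h]
  refine Set.ncard_le_ncard ?_ (Set.toFinite S)
  intro x hx
  rcases hx with hx | hx
  · rw [hx]; exact ha
  · rw [Set.mem_singleton_iff.1 hx]; exact hb

private theorem nch_four {V : Type} [Finite V] {S : Set V} {a b c d : V} (ha : a ∈ S)
    (hb : b ∈ S) (hc : c ∈ S) (hd : d ∈ S) (hab : a ≠ b) (hac : a ≠ c) (had : a ≠ d)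
    (hbc : b ≠ c) (hbd : b ≠ d) (hcd : c ≠ d) : 4 ≤ S.ncard := by
  have h : ({a, b, c, d} : Set V).ncard = 4 := by
    rw [Set.ncard_insert_of_notMem (by simp [hab, hac, had]),
      Set.ncard_insert_of_notMem (by simp [hbc, hbd]), Set.ncard_pair hcd]
  rw [← h]
  refine Set.ncard_le_ncard ?_ (Set.toFinite S)
  intro x hx
  simp only [Set.mem_insert_iff, Set.mem_singleton_iff] at hx
  rcases hx with hx | hx | hx | hx
  · rw [hx]; exact ha
  · rw [hx]; exact hb
  · rw [hx]; exact hc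
  · rw [hx]; exact hd

/-- A child with a neighbour in `L2` has degree at least 2. If `i = n`, `i = 0`: `end_one`; if `i = n - 1` or `i = 1`: `end_two` (and `rev_max`); otherwise `s (i - 1)` and `s (i + 1)` have degree at least 2 and `v ≠ w` would give four such neighbours of `s i`. -/
theorem nonleaf_Ch {V : Type} [Finite V] {G : SimpleGraph V} (hG : G.IsAcyclic) {n : ℕ} {s : ℕ → V}
    (h : MaxSpine G n s) (hd : ∀ v, {w | G.Adj v w ∧ 2 ≤ (G.neighborSet w).ncard}.ncard ≤ 3) {i : ℕ} (hi : i ≤ n)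
    {v w : V} (hv : v ∈ Ch G n s i) (hw : w ∈ Ch G n s i) (hv2 : ∃ d, L2 G n s d ∧ G.Adj d v)
    (hw2 : ∃ d, L2 G n s d ∧ G.Adj d w) : v = w := by
  by_contra hne
  obtain ⟨d, hdL, hdv⟩ := hv2
  obtain ⟨d', hdL', hdw⟩ := hw2
  have hinj := h.1.1
  have hadj := h.1.2.1
  have hrev := rev_max h
  have hv0 : ¬ L0 n s v := hv.1.1
  have hv0' : ¬ L0 n (fun k => s (n - k)) v := by
    rintro ⟨k, hk, hk2⟩
    exact hv0 ⟨n - k, Nat.sub_le _ _, hk2⟩
  -- the ends
  have hin : i ≠ n := by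
    intro hin
    exact end_one h hv0 (by have := hv.2.symm; rwa [hin] at this)
  have hi0 : i ≠ 0 := by
    intro hi0
    apply end_one hrev hv0'
    have := hv.2.symm
    rw [hi0] at this
    simpa using this
  have hn1 : 1 ≤ n := by omega
  have hin1 : i ≠ n - 1 := by
    intro hin1
    have hd1 := end_two hG h hn1 hv0 (by have := hv.2.symm; rwa [hin1] at this) hdv.symm
    exact hdL.1 ⟨n - 1, Nat.sub_le _ _, hd1⟩
  have hi1 : i ≠ 1 := by
    intro hi1
    have hd1 := end_two hG hrev hn1 hv0' (by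
      have := hv.2.symm
      rw [hi1] at this
      have h2 : n - (n - 1) = 1 := by omega
      simpa [h2] using this) hdv.symm
    exact hdL.1 ⟨n - (n - 1), Nat.sub_le _ _, hd1⟩
  -- the four neighbours
  have hspine : ∀ k ≤ n, ∀ x, ¬ L0 n s x → x ≠ s k := by
    intro k hk x hx hxk
    exact hx ⟨k, hk, hxk⟩
  have a1 : G.Adj (s i) (s (i - 1)) := by
    have := hadj (i - 1) (by omega)
    have e : i - 1 + 1 = i := by omega
    rw [e] at this
    exact this.symm
  have a2 : G.Adj (s i) (s (i + 1)) := hadj i (by omega)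
  have a3 : G.Adj (s (i - 1)) (s (i - 2)) := by
    have := hadj (i - 2) (by omega)
    have e : i - 2 + 1 = i - 1 := by omega
    rw [e] at this
    exact this.symm
  have a4 : G.Adj (s (i + 1)) (s (i + 2)) := hadj (i + 1) (by omega)
  have n1 : s i ≠ s (i - 2) := by
    intro e
    have := hinj i (i - 2) (by omega) (by omega) e
    omega
  have n2 : s i ≠ s (i + 2) := by
    intro e
    have := hinj i (i + 2) (by omega) (by omega) e
    omega
  have n3 : s (i - 1) ≠ s (i + 1) := by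
    intro e
    have := hinj (i - 1) (i + 1) (by omega) (by omega) e
    omega
  have m1 : v ∈ {w | G.Adj (s i) w ∧ 2 ≤ (G.neighborSet w).ncard} :=
    ⟨hv.2.symm, nch_two (a := s i) (b := d) hv.2 hdv.symm (hspine i hi d hdL.1).symm⟩
  have m2 : w ∈ {w | G.Adj (s i) w ∧ 2 ≤ (G.neighborSet w).ncard} :=
    ⟨hw.2.symm, nch_two (a := s i) (b := d') hw.2 hdw.symm (hspine i hi d' hdL'.1).symm⟩
  have m3 : s (i - 1) ∈ {w | G.Adj (s i) w ∧ 2 ≤ (G.neighborSet w).ncard} :=
    ⟨a1, nch_two (a := s i) (b := s (i - 2)) a1.symm a3 n1⟩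
  have m4 : s (i + 1) ∈ {w | G.Adj (s i) w ∧ 2 ≤ (G.neighborSet w).ncard} :=
    ⟨a2, nch_two (a := s i) (b := s (i + 2)) a2.symm a4 n2⟩
  have h4 := nch_four m1 m2 m3 m4 hne (hspine _ (by omega) v hv0) (hspine _ (by omega) v hv0)
    (hspine _ (by omega) w hw.1.1) (hspine _ (by omega) w hw.1.1) n3
  have h3 := hd (s i)
  omega
-- END nch

-- BEGIN clv
/-- `w` has a neighbour on the spine besides. -/
theorem card_leaves {V : Type} [Finite V] {G : SimpleGraph V} {n : ℕ} {s : ℕ → V}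
    (hd : ∀ v, (G.neighborSet v).ncard ≤ 4) {w : V} (hw : L1 G n s w) :
    {v | L2 G n s v ∧ G.Adj v w}.ncard ≤ 3 := by
  obtain ⟨k, hk, hadj⟩ := hw.2
  have hmem : s k ∈ G.neighborSet w := hadj
  have hsub : {v | L2 G n s v ∧ G.Adj v w} ⊆ G.neighborSet w \ {s k} := by
    rintro v ⟨hv, hvw⟩
    refine ⟨hvw.symm, fun h => hv.1 ⟨k, hk, h⟩⟩
  have h1 := Set.ncard_le_ncard hsub (Set.toFinite _)
  have h2 := Set.ncard_sdiff_singleton_add_one hmem (Set.toFinite _)
  have h3 := hd w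
  omega
-- END clv

/-! ## Part 3: labels and codes -/

-- BEGIN lb2
/-- Take `y ∈ X` with `Y ⊆ {y}` and `f v = decide (v = y)` (classical). -/
theorem exists_label2 {V : Type} [Finite V] (X Y : Set V) (hX : X.ncard ≤ 2) (hYX : Y ⊆ X)
    (hY : ∀ v ∈ Y, ∀ w ∈ Y, v = w) : ∃ f : V → Bool, Set.InjOn f X ∧ ∀ y ∈ Y, f y = true := by
  classical
  rcases X.eq_empty_or_nonempty with rfl | ⟨x, hx⟩
  · exact ⟨fun _ => true, Set.injOn_empty _, fun _ _ => rfl⟩
  obtain ⟨y, hyX, hyY⟩ : ∃ y ∈ X, ∀ v ∈ Y, v = y := by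
    rcases Y.eq_empty_or_nonempty with h | ⟨y, hy⟩
    · exact ⟨x, hx, fun v hv => by rw [h] at hv; exact hv.elim⟩
    · exact ⟨y, hYX hy, fun v hv => hY v hv y hy⟩
  refine ⟨fun v => decide (v = y), fun u hu w hw huw => ?_, fun v hv => decide_eq_true (hyY v hv)⟩
  have huw' : (u = y) ↔ (w = y) := by
    have := huw
    simp only [decide_eq_decide] at this
    exact this
  by_cases h1 : u = y
  · rw [h1, huw'.1 h1]
  · have h2 : w ≠ y := fun h => h1 (huw'.2 h)
    by_contra h3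
    have h4 : ({u, w, y} : Set V) ⊆ X := by
      rintro a (rfl | rfl | rfl)
      · exact hu
      · exact hw
      · exact hyX
    have h5 := Set.ncard_le_ncard h4 (Set.toFinite _)
    rw [Set.ncard_eq_three.2 ⟨u, w, y, h3, h1, h2, rfl⟩] at h5
    omega
-- END lb2

-- BEGIN lb3
/-- An embedding of `X` into `Fin 3`. -/
theorem exists_label3 {V : Type} [Finite V] (X : Set V) (hX : X.ncard ≤ 3) :
    ∃ g : V → Fin 3, Set.InjOn g X := by
  have hf : X.Finite := Set.toFinite X
  have hle : X.encard ≤ (Set.univ : Set (Fin 3)).encard := by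
    rw [← hf.cast_ncard_eq, Set.encard_univ]
    simp only [ENat.card_eq_coe_fintype_card, Fintype.card_fin]
    exact_mod_cast hX
  obtain ⟨g, -, hg⟩ := hf.exists_injOn_of_encard_le hle
  exact ⟨g, hg⟩
-- END lb3

/-- The code `(i, κ)` of a vertex: `κ = 0` for `s i`, `κ = 1, 2` for a child of `s i`, `κ ≥ 3` for a child of a child of `s i`. -/
def Good {V : Type} (G : SimpleGraph V) (n : ℕ) (s : ℕ → V) (f : ℕ → V → Bool) (g : V → V → Fin 3) (v : V)
    (i : ℕ) (κ : Fin 6) : Prop :=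
  i ≤ n ∧ ((κ = 0 ∧ v = s i) ∨ (κ = 1 ∧ v ∈ Ch G n s i ∧ f i v = true) ∨
    (κ = 2 ∧ v ∈ Ch G n s i ∧ f i v = false) ∨
    ∃ w ∈ Ch G n s i, L2 G n s v ∧ G.Adj v w ∧ (κ : ℕ) = 3 + (g w v : ℕ))

/-- the properties of the labels -/
def Labels {V : Type} (G : SimpleGraph V) (n : ℕ) (s : ℕ → V) (f : ℕ → V → Bool) (g : V → V → Fin 3) : Prop :=
  (∀ i ≤ n, Set.InjOn (f i) (Ch G n s i)) ∧
  (∀ i ≤ n, ∀ v ∈ Ch G n s i, (∃ d, L2 G n s d ∧ G.Adj d v) → f i v = true) ∧
  ∀ w, L1 G n s w → Set.InjOn (g w) {v | L2 G n s v ∧ G.Adj v w}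

/-- adjacency of codes, `D` is the difference of the spine indices -/
def uadj (D : ℤ) (κ l : Fin 6) : Prop :=
  (κ = 0 ∧ l = 0 ∧ (D = 1 ∨ D = -1)) ∨
    (D = 0 ∧ ((κ = 0 ∧ (l = 1 ∨ l = 2)) ∨ (l = 0 ∧ (κ = 1 ∨ κ = 2)) ∨ (κ = 1 ∧ 3 ≤ l) ∨ (l = 1 ∧ 3 ≤ κ)))

instance (D : ℤ) (κ l : Fin 6) : Decidable (uadj D κ l) := by unfold uadj; infer_instance

-- BEGIN lab
/-- `exists_label2`, `exists_label3` for every `i`, `w` and choice (`card_Ch`, `nonleaf_Ch`, `card_leaves`). -/
theorem exists_labels {V : Type} [Finite V] {G : SimpleGraph V} (hG : G.IsAcyclic) {n : ℕ} {s : ℕ → V}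
    (h : MaxSpine G n s) (hd4 : ∀ v, (G.neighborSet v).ncard ≤ 4)
    (hd3 : ∀ v, {w | G.Adj v w ∧ 2 ≤ (G.neighborSet w).ncard}.ncard ≤ 3) :
    ∃ (f : ℕ → V → Bool) (g : V → V → Fin 3), Labels G n s f g := by
  have hf : ∀ i : ℕ, ∃ f : V → Bool, i ≤ n → (Set.InjOn f (Ch G n s i) ∧
      ∀ v ∈ Ch G n s i, (∃ d, L2 G n s d ∧ G.Adj d v) → f v = true) := by
    intro i
    by_cases hi : i ≤ n
    · obtain ⟨f, hf1, hf2⟩ := exists_label2 (Ch G n s i)
        {v | v ∈ Ch G n s i ∧ ∃ d, L2 G n s d ∧ G.Adj d v} (card_Ch h hd4 hi)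
        (fun v hv => hv.1) (fun v hv w hw => nonleaf_Ch hG h hd3 hi hv.1 hw.1 hv.2 hw.2)
      exact ⟨f, fun _ => ⟨hf1, fun v hv hd => hf2 v ⟨hv, hd⟩⟩⟩
    · exact ⟨fun _ => true, fun h' => absurd h' hi⟩
  have hg : ∀ w : V, ∃ g : V → Fin 3, L1 G n s w →
      Set.InjOn g {v | L2 G n s v ∧ G.Adj v w} := by
    intro w
    by_cases hw : L1 G n s w
    · obtain ⟨g, hg⟩ := exists_label3 {v | L2 G n s v ∧ G.Adj v w} (card_leaves hd4 hw)
      exact ⟨g, fun _ => hg⟩
    · exact ⟨fun _ => 0, fun h' => absurd h' hw⟩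
  choose f hf using hf
  choose g hg using hg
  exact ⟨f, g, fun i hi => (hf i hi).1, fun i hi => (hf i hi).2, fun w hw => hg w hw⟩
-- END lab

-- BEGIN cdx
/-- Cases `L0`, `L1`, `L2` (`L2_parent`). -/
theorem code_exists {V : Type} {G : SimpleGraph V} {n : ℕ} {s : ℕ → V} (hs : IsSpine G n s)
    (f : ℕ → V → Bool) (g : V → V → Fin 3) (v : V) : ∃ (i : ℕ) (κ : Fin 6), Good G n s f g v i κ := by
  classical
  by_cases h0 : L0 n s v
  · obtain ⟨k, hk, hv⟩ := h0
    exact ⟨k, 0, hk, Or.inl ⟨rfl, hv⟩⟩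
  by_cases h1 : ∃ k ≤ n, G.Adj v (s k)
  · obtain ⟨k, hk, ha⟩ := h1
    have hc : v ∈ Ch G n s k := ⟨⟨h0, k, hk, ha⟩, ha⟩
    cases hf : f k v with
    | true => exact ⟨k, 1, hk, Or.inr (Or.inl ⟨rfl, hc, hf⟩)⟩
    | false => exact ⟨k, 2, hk, Or.inr (Or.inr (Or.inl ⟨rfl, hc, hf⟩))⟩
  · have h2 : L2 G n s v := ⟨h0, h1⟩
    obtain ⟨w, hvw, hw0, k, hk, ha⟩ := L2_parent hs h2
    exact ⟨k, ⟨3 + (g w v : ℕ), by have := (g w v).2; omega⟩, hk,
      Or.inr (Or.inr (Or.inr ⟨w, ⟨⟨hw0, k, hk, ha⟩, ha⟩, h2, hvw, rfl⟩))⟩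
-- END cdx

-- BEGIN cdi
/-- Cases; for `κ ≥ 3` the two parents are equal (both have the label `true`). -/
theorem code_inj {V : Type} {G : SimpleGraph V} {n : ℕ} {s : ℕ → V}
    {f : ℕ → V → Bool} {g : V → V → Fin 3} (hL : Labels G n s f g) {u v : V} {i : ℕ} {κ : Fin 6}
    (hu : Good G n s f g u i κ) (hv : Good G n s f g v i κ) : u = v := by
  obtain ⟨hi, hu⟩ := hu
  obtain ⟨-, hv⟩ := hv
  obtain ⟨hf, hf2, hg⟩ := hL
  have v0 : ∀ x : Fin 6, x = 0 → (x : ℕ) = 0 := by
    rintro x rfl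
    rfl
  have v1 : ∀ x : Fin 6, x = 1 → (x : ℕ) = 1 := by
    rintro x rfl
    rfl
  have v2 : ∀ x : Fin 6, x = 2 → (x : ℕ) = 2 := by
    rintro x rfl
    rfl
  rcases hu with ⟨k1, hu⟩ | ⟨k1, hu, fu⟩ | ⟨k1, hu, fu⟩ | ⟨w, hw, hu, huw, k1⟩
  · replace k1 := v0 κ k1
    rcases hv with ⟨k2, hv⟩ | ⟨k2, hv, fv⟩ | ⟨k2, hv, fv⟩ | ⟨w', hw', hv, hvw, k2⟩
    · rw [hu, hv]
    · exact absurd (v1 κ k2) (by omega)
    · exact absurd (v2 κ k2) (by omega)
    · omega
  · replace k1 := v1 κ k1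
    rcases hv with ⟨k2, hv⟩ | ⟨k2, hv, fv⟩ | ⟨k2, hv, fv⟩ | ⟨w', hw', hv, hvw, k2⟩
    · exact absurd (v0 κ k2) (by omega)
    · exact hf i hi hu hv (fu.trans fv.symm)
    · exact absurd (v2 κ k2) (by omega)
    · omega
  · replace k1 := v2 κ k1
    rcases hv with ⟨k2, hv⟩ | ⟨k2, hv, fv⟩ | ⟨k2, hv, fv⟩ | ⟨w', hw', hv, hvw, k2⟩
    · exact absurd (v0 κ k2) (by omega)
    · exact absurd (v1 κ k2) (by omega)
    · exact hf i hi hu hv (fu.trans fv.symm)
    · omega
  · rcases hv with ⟨k2, hv⟩ | ⟨k2, hv, fv⟩ | ⟨k2, hv, fv⟩ | ⟨w', hw', hv, hvw, k2⟩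
    · exact absurd (v0 κ k2) (by omega)
    · exact absurd (v1 κ k2) (by omega)
    · exact absurd (v2 κ k2) (by omega)
    · have e1 : f i w = true := hf2 i hi w hw ⟨u, hu, huw⟩
      have e2 : f i w' = true := hf2 i hi w' hw' ⟨v, hv, hvw⟩
      have e3 : w = w' := hf i hi hw hw' (e1.trans e2.symm)
      subst e3
      refine hg w hw.1 ⟨hu, huw⟩ ⟨hv, hvw⟩ (Fin.ext ?_)
      omega
-- END cdi

-- BEGIN cda
private theorem cda_nat (D : ℤ) (κ l : Fin 6) : uadj D κ l ↔
    ((κ : ℕ) = 0 ∧ (l : ℕ) = 0 ∧ (D = 1 ∨ D = -1)) ∨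
      (D = 0 ∧ (((κ : ℕ) = 0 ∧ ((l : ℕ) = 1 ∨ (l : ℕ) = 2)) ∨
        ((l : ℕ) = 0 ∧ ((κ : ℕ) = 1 ∨ (κ : ℕ) = 2)) ∨ ((κ : ℕ) = 1 ∧ 3 ≤ (l : ℕ)) ∨
          ((l : ℕ) = 1 ∧ 3 ≤ (κ : ℕ)))) := by
  unfold uadj
  simp only [Fin.ext_iff, Fin.le_def]
  rfl

private theorem cda_good {V : Type} {G : SimpleGraph V} {n : ℕ} {s : ℕ → V} {f : ℕ → V → Bool}
    {g : V → V → Fin 3} {u : V} {i : ℕ} {κ : Fin 6} (hu : Good G n s f g u i κ) :
    ((κ : ℕ) = 0 ∧ u = s i) ∨ (u ∈ Ch G n s i ∧ (((κ : ℕ) = 1 ∧ f i u = true) ∨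
      ((κ : ℕ) = 2 ∧ f i u = false))) ∨ (3 ≤ (κ : ℕ) ∧ ∃ w ∈ Ch G n s i, L2 G n s u ∧ G.Adj u w) := by
  obtain ⟨-, ⟨rfl, h⟩ | ⟨rfl, h, h'⟩ | ⟨rfl, h, h'⟩ | ⟨w, hw, h, h', hk⟩⟩ := hu
  · exact Or.inl ⟨rfl, h⟩
  · exact Or.inr (Or.inl ⟨h, Or.inl ⟨rfl, h'⟩⟩)
  · exact Or.inr (Or.inl ⟨h, Or.inr ⟨rfl, h'⟩⟩)
  · exact Or.inr (Or.inr ⟨by omega, w, hw, h, h'⟩)

private theorem cda_sc {V : Type} {G : SimpleGraph V} (hG : G.IsAcyclic) {n : ℕ} {s : ℕ → V}
    (hs : IsSpine G n s) {v : V} {i j : ℕ} (hi : i ≤ n) (hj : j ≤ n) (hv : v ∈ Ch G n s j) :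
    G.Adj (s i) v ↔ j = i := by
  constructor
  · intro h
    exact (one_foot hG hs hv.1.1 hi hj h.symm hv.2).symm
  · rintro rfl
    exact hv.2.symm

private theorem cda_c2 {V : Type} {G : SimpleGraph V} (hG : G.IsAcyclic) {n : ℕ} {s : ℕ → V}
    (hs : IsSpine G n s) {f : ℕ → V → Bool} {g : V → V → Fin 3} (hL : Labels G n s f g) {u v w : V}
    {i j : ℕ} (hi : i ≤ n) (hj : j ≤ n) (hu : u ∈ Ch G n s i) (hw : w ∈ Ch G n s j)
    (hv : L2 G n s v) (hvw : G.Adj v w) : G.Adj u v ↔ (j = i ∧ f i u = true) := by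
  constructor
  · intro h
    have e : u = w := one_nbr_L2 hG hs hv h.symm hvw
    subst e
    have e2 : i = j := one_foot hG hs hu.1.1 hi hj hu.2 hw.2
    exact ⟨e2.symm, hL.2.1 i hi u hu ⟨v, hv, hvw⟩⟩
  · rintro ⟨rfl, h⟩
    have e1 : f j w = true := hL.2.1 j hi w hw ⟨v, hv, hvw⟩
    have e2 : u = w := hL.1 j hi hu hw (h.trans e1.symm)
    rw [e2]
    exact hvw.symm

private theorem cda_22 {V : Type} {G : SimpleGraph V} (hG : G.IsAcyclic) {n : ℕ} {s : ℕ → V}
    (hs : IsSpine G n s) {u v w : V} {j : ℕ} (hu : L2 G n s u) (hv : L2 G n s v)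
    (hw : w ∈ Ch G n s j) (hvw : G.Adj v w) : ¬ G.Adj u v := by
  intro h
  have e : u = w := one_nbr_L2 hG hs hv h.symm hvw
  rw [e] at hu
  exact hu.2 hw.1.2

/-- Cases (4 times 4). Spine and spine: `spine_adj`. Spine and child: `one_foot`. Spine and `L2`: never. Child and child: `no_adj_L1`. Child `u` and `v` in `L2` with parent `w`: adjacent iff `u = w` (`one_nbr_L2`), then the indices agree (`one_foot`) and `f i w = true`; conversely equal indices and `f i u = true` give `u = w`. `L2` and `L2`: never (`one_nbr_L2`: the only neighbour is in `L1`). -/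
theorem code_adj {V : Type} {G : SimpleGraph V} (hG : G.IsAcyclic) {n : ℕ} {s : ℕ → V} (hs : IsSpine G n s)
    {f : ℕ → V → Bool} {g : V → V → Fin 3} (hL : Labels G n s f g) {u v : V} {i j : ℕ} {κ l : Fin 6}
    (hu : Good G n s f g u i κ) (hv : Good G n s f g v j l) : G.Adj u v ↔ uadj ((j : ℤ) - i) κ l := by
  have hi : i ≤ n := hu.1
  have hj : j ≤ n := hv.1
  rw [cda_nat]
  rcases cda_good hu with ⟨k, rfl⟩ | ⟨hc, k⟩ | ⟨k, w, hw, hu2, huw⟩
  · rcases cda_good hv with ⟨k', rfl⟩ | ⟨hc', k'⟩ | ⟨k', w', hw', hv2, hvw⟩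
    · constructor
      · intro h
        rcases spine_adj hG hs hi hj h with h1 | h1
        · left
          exact ⟨k, k', Or.inr (by omega)⟩
        · left
          exact ⟨k, k', Or.inl (by omega)⟩
      · intro h
        have h1 : (j : ℤ) - i = 1 ∨ (j : ℤ) - i = -1 := by omega
        rcases h1 with h1 | h1
        · have e : j = i + 1 := by omega
          rw [e]
          exact hs.2.1 i (by omega)
        · have e : i = j + 1 := by omega
          rw [e]
          exact (hs.2.1 j (by omega)).symm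
    · rw [cda_sc hG hs hi hj hc']
      rcases k' with ⟨k', -⟩ | ⟨k', -⟩
      · omega
      · omega
    · have h0 : ¬ G.Adj (s i) v := fun h => hv2.2 ⟨i, hi, h.symm⟩
      constructor
      · intro h
        exact absurd h h0
      · intro h
        omega
  · rcases cda_good hv with ⟨k', rfl⟩ | ⟨hc', k'⟩ | ⟨k', w', hw', hv2, hvw⟩
    · rw [G.adj_comm, cda_sc hG hs hj hi hc]
      rcases k with ⟨k, -⟩ | ⟨k, -⟩
      · omega
      · omega
    · have h0 : ¬ G.Adj u v := no_adj_L1 hG hs hc.1 hc'.1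
      constructor
      · intro h
        exact absurd h h0
      · intro h
        omega
    · rw [cda_c2 hG hs hL hi hj hc hw' hv2 hvw]
      rcases k with ⟨k, hk⟩ | ⟨k, hk⟩
      · rw [hk]
        simp only [and_true]
        omega
      · rw [hk]
        simp only [Bool.false_eq_true, and_false, false_iff]
        omega
  · rcases cda_good hv with ⟨k', rfl⟩ | ⟨hc', k'⟩ | ⟨k', w', hw', hv2, hvw⟩
    · have h0 : ¬ G.Adj u (s j) := fun h => hu2.2 ⟨j, hj, h⟩
      constructor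
      · intro h
        exact absurd h h0
      · intro h
        omega
    · rw [G.adj_comm, cda_c2 hG hs hL hj hi hc' hw hu2 huw]
      rcases k' with ⟨k', hk⟩ | ⟨k', hk⟩
      · rw [hk]
        simp only [and_true]
        omega
      · rw [hk]
        simp only [Bool.false_eq_true, and_false, false_iff]
        omega
    · have h0 : ¬ G.Adj u v := cda_22 hG hs hu2 hv2 hw' hvw
      constructor
      · intro h
        exact absurd h h0
      · intro h
        omega
-- END cda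

/-! ## Part 4: the positions -/

/-- horizontal offsets in hundredths -/
def xk : Fin 6 → ℤ := ![0, 0, 0, 100, -10, -100]

/-- vertical offsets in hundredths -/
def yk : Fin 6 → ℤ := ![0, 190, -15, 220, 388, 190]

/-- the side -/
def sd (i : ℤ) : ℤ := if i % 2 = 0 then 1 else -1

-- BEGIN tab
/-- `decide` (or `decide +kernel`). -/
theorem table (D : Fin 5) (κ l : Fin 6) (h : ¬ ((D : ℤ) = 2 ∧ κ = l)) :
    (200 * ((D : ℤ) - 2) + xk l - xk κ) ^ 2 + (yk κ - sd ((D : ℤ) - 2) * yk l) ^ 2 ≤ 40000 ↔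
      uadj ((D : ℤ) - 2) κ l := by
  revert D κ l
  decide +kernel
-- END tab

/-- the centre with code `(i, κ)` -/
noncomputable def pos (i : ℕ) (κ : Fin 6) : ℂ :=
  ⟨((200 * (i : ℤ) + xk κ : ℤ) : ℝ) / 100, ((sd i * yk κ : ℤ) : ℝ) / 100⟩

-- BEGIN tb2
private theorem tb2_sq (i : ℤ) : sd i * sd i = 1 := by
  unfold sd
  split_ifs <;> norm_num

private theorem tb2_mul (i j : ℤ) : sd j = sd i * sd (j - i) := by
  unfold sd
  split_ifs <;> omega

private theorem tb2_xk (κ : Fin 6) : -100 ≤ xk κ ∧ xk κ ≤ 100 := by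
  revert κ
  decide

/-- `table` if `|j - i| ≤ 2`, otherwise the first square is at least `400 ^ 2`. (`sd i * sd i = 1`, `sd j = sd i * sd (j - i)`.) -/
theorem table2 (i j : ℤ) (κ l : Fin 6) (h : ¬ (i = j ∧ κ = l)) :
    (200 * (j - i) + xk l - xk κ) ^ 2 + (sd i * yk κ - sd j * yk l) ^ 2 ≤ 40000 ↔ uadj (j - i) κ l := by
  have e1 : (sd i * yk κ - sd j * yk l) ^ 2 = (yk κ - sd (j - i) * yk l) ^ 2 := by
    have h1 : sd i * yk κ - sd j * yk l = sd i * (yk κ - sd (j - i) * yk l) := by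
      rw [tb2_mul i j]
      ring
    rw [h1, mul_pow, sq (sd i), tb2_sq, one_mul]
  rw [e1]
  by_cases hD : -2 ≤ j - i ∧ j - i ≤ 2
  · obtain ⟨D, hD'⟩ : ∃ D : Fin 5, (D : ℤ) = j - i + 2 := by
      refine ⟨⟨(j - i + 2).toNat, by omega⟩, ?_⟩
      simp only
      omega
    have h2 := table D κ l (by
      rintro ⟨h3, h4⟩
      exact h ⟨by omega, h4⟩)
    have e2 : (D : ℤ) - 2 = j - i := by omega
    rw [e2] at h2
    exact h2
  · constructor
    · intro h3
      exfalso
      obtain ⟨a1, a2⟩ := tb2_xk κ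
      obtain ⟨b1, b2⟩ := tb2_xk l
      have h4 := sq_nonneg (yk κ - sd (j - i) * yk l)
      rcases lt_or_ge (j - i) (-2) with h5 | h5
      · have h6 : 200 * (j - i) + xk l - xk κ ≤ -400 := by linarith
        nlinarith
      · have h7 : 3 ≤ j - i := by
          by_contra h8
          exact hD ⟨h5, by omega⟩
        have h6 : 400 ≤ 200 * (j - i) + xk l - xk κ := by linarith
        nlinarith
    · intro h3
      exfalso
      rcases h3 with ⟨-, -, h4 | h4⟩ | ⟨h4, -⟩ <;> omega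
-- END tb2

-- BEGIN psa
/-- `table2`, `Complex.dist_eq_re_im`. -/
theorem pos_adj (i j : ℕ) (κ l : Fin 6) (h : ¬ (i = j ∧ κ = l)) :
    dist (pos i κ) (pos j l) ≤ 2 ↔ uadj ((j : ℤ) - i) κ l := by
  have h' : ¬ ((i : ℤ) = j ∧ κ = l) := by
    rintro ⟨h1, h2⟩
    exact h ⟨by exact_mod_cast h1, h2⟩
  rw [← table2 (i : ℤ) (j : ℤ) κ l h', Complex.dist_eq_re_im, Real.sqrt_le_iff]
  have e : ((pos i κ).re - (pos j l).re) ^ 2 + ((pos i κ).im - (pos j l).im) ^ 2 =
      (((200 * ((j : ℤ) - i) + xk l - xk κ) ^ 2 + (sd i * yk κ - sd j * yk l) ^ 2 : ℤ) : ℝ) / 10000 := by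
    simp only [pos]
    push_cast
    ring
  rw [e]
  constructor
  · rintro ⟨_, h2⟩
    have h3 : (((200 * ((j : ℤ) - i) + xk l - xk κ) ^ 2 + (sd i * yk κ - sd j * yk l) ^ 2 : ℤ) : ℝ) ≤
        ((40000 : ℤ) : ℝ) := by
      push_cast at h2 ⊢
      linarith
    exact_mod_cast h3
  · intro h2
    refine ⟨by norm_num, ?_⟩
    have h3 : (((200 * ((j : ℤ) - i) + xk l - xk κ) ^ 2 + (sd i * yk κ - sd j * yk l) ^ 2 : ℤ) : ℝ) ≤
        ((40000 : ℤ) : ℝ) := by exact_mod_cast h2
    push_cast at h3 ⊢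
    linarith
-- END psa

-- BEGIN bal
/-- The midpoint; the triangle inequality. -/
theorem ball_meet (x y : ℂ) : (Metric.closedBall x 1 ∩ Metric.closedBall y 1).Nonempty ↔ dist x y ≤ 2 := by
  constructor
  · rintro ⟨z, hx, hy⟩
    rw [Metric.mem_closedBall] at hx hy
    calc dist x y ≤ dist x z + dist z y := dist_triangle _ _ _
      _ ≤ 1 + 1 := add_le_add (by rwa [dist_comm]) hy
      _ = 2 := by norm_num
  · intro h
    refine ⟨midpoint ℝ x y, ?_, ?_⟩
    · rw [Metric.mem_closedBall, dist_midpoint_left]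
      norm_num
      linarith
    · rw [Metric.mem_closedBall, dist_midpoint_right]
      norm_num
      linarith
-- END bal

-- BEGIN emb
/-- A longest spine (`exists_max`), labels (`exists_labels`), codes (`code_exists`, choice), `pos`; `ball_meet`, `pos_adj`, `code_adj`, `code_inj`. -/
theorem lobster_udg {V : Type} [Finite V] (G : SimpleGraph V) (hG : IsLobster G)
    (hd4 : ∀ v, (G.neighborSet v).ncard ≤ 4)
    (hd3 : ∀ v, {w | G.Adj v w ∧ 2 ≤ (G.neighborSet w).ncard}.ncard ≤ 3) : IsUnitDiskGraph G := by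
  classical
  obtain ⟨hT, n0, s0, hs0⟩ := hG
  obtain ⟨n, s, hm⟩ := exists_max ⟨n0, s0, hs0⟩
  have hac := hT.isAcyclic
  obtain ⟨f, g, hL⟩ := exists_labels hac hm hd4 hd3
  have hs := hm.1
  choose i κ hc using code_exists hs f g
  refine ⟨fun v => pos (i v) (κ v), fun u v huv => ?_⟩
  rw [ball_meet]
  have hne : ¬ (i u = i v ∧ κ u = κ v) := by
    rintro ⟨h1, h2⟩
    have hv := hc v
    rw [← h1, ← h2] at hv
    exact huv (code_inj hL (hc u) hv)
  rw [pos_adj _ _ _ _ hne]
  exact code_adj hac hs hL (hc u) (hc v)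
-- END emb

/-! ## Part 5: area -/

-- BEGIN lu0
/-- Fubini (`Complex.volume_preserving_equiv_real_prod`): the slice at height `b` is contained in `Ioc w (d + w)`, `w = √(25 - b ^ 2)`, and empty if `|b| > 5`. -/
theorem lune_zero (d : ℝ) (hd : 0 ≤ d) :
    volume (Metric.closedBall (d : ℂ) 5 \ Metric.closedBall (0 : ℂ) 5) ≤ ENNReal.ofReal (10 * d) := by
  obtain ⟨A, hA⟩ : ∃ A : Set (ℝ × ℝ),
    A = {p | (p.1 - d) ^ 2 + p.2 ^ 2 ≤ 25 ∧ 25 < p.1 ^ 2 + p.2 ^ 2} := ⟨_, rfl⟩
  have hmA : MeasurableSet A := by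
    rw [hA]
    exact (measurableSet_le (f := fun p : ℝ × ℝ => (p.1 - d) ^ 2 + p.2 ^ 2) (g := fun _ => (25 : ℝ))
      (by fun_prop) measurable_const).inter
      (measurableSet_lt (f := fun _ : ℝ × ℝ => (25 : ℝ)) (g := fun p : ℝ × ℝ => p.1 ^ 2 + p.2 ^ 2)
      measurable_const (by fun_prop))
  have heq : Metric.closedBall (d : ℂ) 5 \ Metric.closedBall (0 : ℂ) 5 =
      Complex.measurableEquivRealProd ⁻¹' A := by
    ext z
    rw [Set.mem_sdiff, Metric.mem_closedBall, Metric.mem_closedBall, Set.mem_preimage, hA,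
      Complex.dist_eq_re_im, Complex.dist_eq_re_im, Real.sqrt_le_left (by norm_num),
      Real.sqrt_le_left (by norm_num), not_le]
    show _ ↔ ((z.re - d) ^ 2 + z.im ^ 2 ≤ 25 ∧ 25 < z.re ^ 2 + z.im ^ 2)
    simp only [Complex.ofReal_re, Complex.ofReal_im, Complex.zero_re, Complex.zero_im, sub_zero]
    norm_num
  rw [heq, Complex.volume_preserving_equiv_real_prod.measure_preimage hmA.nullMeasurableSet]
  have hslice : ∀ b : ℝ, volume ((fun a : ℝ => (a, b)) ⁻¹' A) ≤
      (Set.Icc (-5 : ℝ) 5).indicator (fun _ => ENNReal.ofReal d) b := by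
    intro b
    by_cases hb : b ∈ Set.Icc (-5 : ℝ) 5
    · rw [Set.indicator_of_mem hb]
      have hsub : ((fun a : ℝ => (a, b)) ⁻¹' A) ⊆
          Set.Ioc (Real.sqrt (25 - b ^ 2)) (Real.sqrt (25 - b ^ 2) + d) := by
        intro a ha
        rw [Set.mem_preimage, hA] at ha
        obtain ⟨h1, h2⟩ := ha
        change (a - d) ^ 2 + b ^ 2 ≤ 25 at h1
        change 25 < a ^ 2 + b ^ 2 at h2
        have hw0 : 0 ≤ Real.sqrt (25 - b ^ 2) := Real.sqrt_nonneg _
        have h25 : 0 ≤ 25 - b ^ 2 := by nlinarith [hb.1, hb.2]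
        have hwsq : Real.sqrt (25 - b ^ 2) ^ 2 = 25 - b ^ 2 := Real.sq_sqrt h25
        generalize Real.sqrt (25 - b ^ 2) = w at hw0 hwsq ⊢
        have h3 : |a - d| ≤ w := abs_le_of_sq_le_sq (by linarith) hw0
        have h4 := abs_le.1 h3
        refine ⟨?_, by linarith [h4.2]⟩
        by_contra hcon
        have hcon' : a ≤ w := not_lt.1 hcon
        have h5 : a ^ 2 ≤ w ^ 2 := sq_le_sq' (by linarith [h4.1]) hcon'
        linarith
      refine (measure_mono hsub).trans (le_of_eq ?_)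
      rw [Real.volume_Ioc, add_sub_cancel_left]
    · rw [Set.indicator_of_notMem hb]
      have hemp : ((fun a : ℝ => (a, b)) ⁻¹' A) = ∅ := by
        rw [Set.eq_empty_iff_forall_notMem]
        intro a ha
        rw [Set.mem_preimage, hA] at ha
        have h1 : (a - d) ^ 2 + b ^ 2 ≤ 25 := ha.1
        have h2 : b ^ 2 ≤ 5 ^ 2 := by nlinarith [sq_nonneg (a - d)]
        exact hb (abs_le.1 (abs_le_of_sq_le_sq h2 (by norm_num)))
      rw [hemp, measure_empty]
  calc volume A = ∫⁻ b, volume ((fun a : ℝ => (a, b)) ⁻¹' A) := by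
        rw [Measure.volume_eq_prod]
        exact Measure.prod_apply_symm hmA
    _ ≤ ∫⁻ b, (Set.Icc (-5 : ℝ) 5).indicator (fun _ => ENNReal.ofReal d) b := lintegral_mono hslice
    _ = ENNReal.ofReal (10 * d) := by
        rw [lintegral_indicator_const measurableSet_Icc, Real.volume_Icc, ← ENNReal.ofReal_mul hd]
        congr 1
        ring
-- END lu0

-- BEGIN lun
/-- Translate `x` to `0` and rotate `y - x` to `dist x y` (`rotation`, `LinearIsometryEquiv.measurePreserving`), `lune_zero`. -/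
theorem lune (x y : ℂ) (h : dist x y ≤ 2) :
    volume (Metric.closedBall y 5 \ Metric.closedBall x 5) ≤ ENNReal.ofReal 20 := by
  by_cases hxy : x = y
  · rw [hxy]
    simp
  · have hne : y - x ≠ 0 := sub_ne_zero.mpr (Ne.symm hxy)
    have hD : dist x y = ‖y - x‖ := by rw [dist_comm, dist_eq_norm]
    have hn0 : ‖y - x‖ ≠ 0 := norm_ne_zero_iff.mpr hne
    have hu : ‖((dist x y : ℝ) : ℂ) / (y - x)‖ = 1 := by
      rw [norm_div, Complex.norm_real, Real.norm_eq_abs, abs_of_nonneg dist_nonneg, hD]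
      exact div_self hn0
    let a : Circle := ⟨((dist x y : ℝ) : ℂ) / (y - x), mem_sphere_zero_iff_norm.mpr hu⟩
    have ha : ∀ z : ℂ, rotation a z = (((dist x y : ℝ) : ℂ) / (y - x)) * z := fun z => rotation_apply a z
    have hmp : MeasurePreserving (fun z : ℂ => rotation a (z - x)) volume volume :=
      (rotation a).measurePreserving.comp (measurePreserving_sub_right volume x)
    have hpre : Metric.closedBall y 5 \ Metric.closedBall x 5 =
        (fun z : ℂ => rotation a (z - x)) ⁻¹'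
          (Metric.closedBall ((dist x y : ℝ) : ℂ) 5 \ Metric.closedBall (0 : ℂ) 5) := by
      ext z
      have h1 : dist (rotation a (z - x)) ((dist x y : ℝ) : ℂ) = dist z y := by
        have e : ((dist x y : ℝ) : ℂ) = rotation a (y - x) := by
          rw [ha, div_mul_cancel₀ _ hne]
        rw [e, (rotation a).dist_map, dist_sub_right]
      have h2 : dist (rotation a (z - x)) 0 = dist z x := by
        rw [dist_zero_right, (rotation a).norm_map, dist_eq_norm]
      simp only [Set.mem_sdiff, Set.mem_preimage, Metric.mem_closedBall, h1, h2]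
    rw [hpre, hmp.measure_preimage (measurableSet_closedBall.diff measurableSet_closedBall).nullMeasurableSet]
    refine (lune_zero _ dist_nonneg).trans (ENNReal.ofReal_le_ofReal (by linarith))
-- END lun

-- BEGIN una
/-- Induction on `n` (`Complex.volume_closedBall`, `lune`). -/
theorem union_area (n : ℕ) (c : ℕ → ℂ) (h : ∀ i < n, dist (c i) (c (i + 1)) ≤ 2) :
    volume (⋃ i ∈ Finset.range (n + 1), Metric.closedBall (c i) 5) ≤ ENNReal.ofReal (25 * Real.pi + 20 * n) := by
  induction n with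
  | zero =>
    have h1 : (⋃ i ∈ Finset.range (0 + 1), Metric.closedBall (c i) 5) = Metric.closedBall (c 0) 5 := by
      ext z
      simp
    rw [h1, Complex.volume_closedBall]
    have h2 : (NNReal.pi : ENNReal) = ENNReal.ofReal Real.pi := by
      rw [ENNReal.ofReal, ← NNReal.coe_real_pi, Real.toNNReal_coe]
    rw [h2, ← ENNReal.ofReal_pow (by norm_num), ← ENNReal.ofReal_mul (by norm_num)]
    refine ENNReal.ofReal_le_ofReal ?_
    simp only [Nat.cast_zero, mul_zero, add_zero]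
    norm_num
  | succ n ih =>
    have h1 : (⋃ i ∈ Finset.range (n + 1 + 1), Metric.closedBall (c i) 5) ⊆
        (⋃ i ∈ Finset.range (n + 1), Metric.closedBall (c i) 5) ∪
          (Metric.closedBall (c (n + 1)) 5 \ Metric.closedBall (c n) 5) := by
      intro z hz
      simp only [Set.mem_iUnion, Finset.mem_range, exists_prop] at hz
      obtain ⟨i, hi, hz⟩ := hz
      rcases Nat.lt_succ_iff_lt_or_eq.1 hi with hi | hi
      · left
        simp only [Set.mem_iUnion, Finset.mem_range, exists_prop]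
        exact ⟨i, hi, hz⟩
      · subst hi
        by_cases hz2 : z ∈ Metric.closedBall (c n) 5
        · left
          simp only [Set.mem_iUnion, Finset.mem_range, exists_prop]
          exact ⟨n, Nat.lt_succ_self n, hz2⟩
        · right
          exact ⟨hz, hz2⟩
    have h2 := ih (fun i hi => h i (Nat.lt_succ_of_lt hi))
    have h3 := lune (c n) (c (n + 1)) (h n (Nat.lt_succ_self n))
    calc volume (⋃ i ∈ Finset.range (n + 1 + 1), Metric.closedBall (c i) 5)
        ≤ volume ((⋃ i ∈ Finset.range (n + 1), Metric.closedBall (c i) 5) ∪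
          (Metric.closedBall (c (n + 1)) 5 \ Metric.closedBall (c n) 5)) := measure_mono h1
      _ ≤ _ := measure_union_le _ _
      _ ≤ ENNReal.ofReal (25 * Real.pi + 20 * n) + ENNReal.ofReal 20 := add_le_add h2 h3
      _ = ENNReal.ofReal (25 * Real.pi + 20 * ((n + 1 : ℕ) : ℝ)) := by
        rw [← ENNReal.ofReal_add (by positivity) (by norm_num)]
        congr 1
        push_cast
        ring
-- END una

-- BEGIN pck
/-- Disjoint disks of area `π` (`measure_biUnion_finset`, `Complex.volume_closedBall`). -/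
theorem pack {V : Type} (I : Finset V) (c : V → ℂ) (U : Set ℂ)
    (hI : ∀ u ∈ I, ∀ v ∈ I, u ≠ v → 2 < dist (c u) (c v)) (hU : ∀ v ∈ I, Metric.closedBall (c v) 1 ⊆ U) :
    ENNReal.ofReal (Real.pi * I.card) ≤ volume U := by
  have hd : (↑I : Set V).PairwiseDisjoint (fun v => Metric.closedBall (c v) 1) := by
    intro u hu v hv huv
    have h := hI u hu v hv huv
    exact Metric.closedBall_disjoint_closedBall (by linarith)
  have h1 : volume (⋃ v ∈ I, Metric.closedBall (c v) 1)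
      = ∑ v ∈ I, volume (Metric.closedBall (c v) 1) :=
    measure_biUnion_finset hd (fun v _ => measurableSet_closedBall)
  have h2 : ∀ v ∈ I, volume (Metric.closedBall (c v) 1) = ENNReal.ofReal Real.pi := by
    intro v _
    rw [Complex.volume_closedBall]
    simp [ENNReal.ofReal, NNReal.pi, Real.toNNReal, Real.pi_pos.le]
    rfl
  calc ENNReal.ofReal (Real.pi * I.card) = ∑ v ∈ I, volume (Metric.closedBall (c v) 1) := by
        rw [Finset.sum_congr rfl h2, Finset.sum_const, nsmul_eq_mul, mul_comm,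
          ENNReal.ofReal_mul (Nat.cast_nonneg _), ENNReal.ofReal_natCast]
    _ = volume (⋃ v ∈ I, Metric.closedBall (c v) 1) := h1.symm
    _ ≤ volume U := measure_mono (Set.iUnion₂_subset hU)
-- END pck

-- BEGIN den
/-- `ball_meet`, `pack`, `union_area`: a vertex within distance 2 of `s i` in the graph has its centre within distance 4 of the centre of `s i`. -/
theorem density {V : Type} (G : SimpleGraph V) (n : ℕ) (s : ℕ → V) (hs : IsSpine G n s)
    (hG : IsUnitDiskGraph G) (I : Finset V) (hI : ∀ u ∈ I, ∀ v ∈ I, ¬ G.Adj u v) :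
    Real.pi * I.card ≤ 25 * Real.pi + 20 * n := by
  obtain ⟨c, hc⟩ := hG
  have had : ∀ u v, G.Adj u v → dist (c u) (c v) ≤ 2 := fun u v h =>
    (ball_meet _ _).1 ((hc u v h.ne).1 h)
  have h1 := union_area n (fun i => c (s i)) fun i hi => had _ _ (hs.2.1 i hi)
  have h2 := pack I c (⋃ i ∈ Finset.range (n + 1), Metric.closedBall (c (s i)) 5)
    (fun u hu v hv huv => by
      by_contra hle
      exact hI u hu v hv ((hc u v huv).2 ((ball_meet _ _).2 (not_lt.1 hle))))
    (fun v _ => by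
      obtain ⟨i, hi, hv⟩ := hs.2.2 v
      have h4 : dist (c v) (c (s i)) ≤ 4 := by
        rcases hv with rfl | h | ⟨w, h, h'⟩
        · rw [dist_self]; norm_num
        · exact (had _ _ h).trans (by norm_num)
        · calc dist (c v) (c (s i)) ≤ dist (c v) (c w) + dist (c w) (c (s i)) := dist_triangle _ _ _
            _ ≤ 2 + 2 := add_le_add (had _ _ h) (had _ _ h')
            _ = 4 := by norm_num
      intro z hz
      refine Set.mem_biUnion (Finset.mem_coe.2 (Finset.mem_range.2 (Nat.lt_succ_of_le hi))) ?_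
      rw [Metric.mem_closedBall] at hz ⊢
      calc dist z (c (s i)) ≤ dist z (c v) + dist (c v) (c (s i)) := dist_triangle _ _ _
        _ ≤ 1 + 4 := add_le_add hz h4
        _ = 5 := by norm_num)
  have h3 := h2.trans h1
  rwa [ENNReal.ofReal_le_ofReal_iff (by positivity)] at h3
-- END den

/-! ## Part 6: a lobster of maximum degree 4 -/

-- BEGIN ptr
/-- Connected: every vertex is reachable from `r` (strong induction on `rk`). The edges are the `s(v, p v)`, `v ≠ r`, all different (`SimpleGraph.isTree_iff_connected_and_card`), or acyclic by a vertex of largest rank on a cycle. -/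
theorem parent_tree {V : Type} [Finite V] (G : SimpleGraph V) (r : V) (p : V → V) (rk : V → ℕ) (hr : p r = r)
    (h : ∀ v, v ≠ r → rk (p v) < rk v) (hG : ∀ u v, G.Adj u v ↔ u ≠ v ∧ (p u = v ∨ p v = u)) : G.IsTree := by
  have hadj : ∀ v, v ≠ r → G.Adj v (p v) := fun v hv =>
    (hG v (p v)).2 ⟨fun e => by
      have h1 := h v hv
      rw [← e] at h1
      exact lt_irrefl _ h1, Or.inl rfl⟩
  have hreach : ∀ (k : ℕ) (v : V), rk v ≤ k → G.Reachable v r := by
    intro k
    induction k with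
    | zero =>
      intro v hv
      by_cases hvr : v = r
      · rw [hvr]
      · have := h v hvr
        omega
    | succ k ih =>
      intro v hv
      by_cases hvr : v = r
      · rw [hvr]
      · have := h v hvr
        exact (hadj v hvr).reachable.trans (ih (p v) (by omega))
  rw [SimpleGraph.isTree_iff_connected_and_card]
  refine ⟨?_, ?_⟩
  · have : Nonempty V := ⟨r⟩
    exact SimpleGraph.Connected.mk fun u v =>
      (hreach (rk u) u le_rfl).trans (hreach (rk v) v le_rfl).symm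
  · have e : Nat.card {v : V // v ≠ r} = Nat.card G.edgeSet := by
      refine Nat.card_congr (Equiv.ofBijective
        (fun v => (⟨s(v.1, p v.1), (SimpleGraph.mem_edgeSet G).2 (hadj v.1 v.2)⟩ : G.edgeSet)) ⟨?_, ?_⟩)
      · rintro ⟨v, hv⟩ ⟨w, hw⟩ hvw
        simp only [Subtype.mk.injEq, Sym2.eq_iff] at hvw
        rcases hvw with ⟨h1, -⟩ | ⟨h1, h2⟩
        · exact Subtype.ext h1
        · exfalso
          have h3 := h v hv
          have h4 := h w hw
          rw [h2] at h3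
          rw [← h1] at h4
          omega
      · rintro ⟨q, hq⟩
        induction q using Sym2.ind with
        | _ u v =>
          have h1 := (hG u v).1 ((SimpleGraph.mem_edgeSet G).1 hq)
          rcases h1 with ⟨hne, h2 | h2⟩
          · refine ⟨⟨u, fun hu => hne ?_⟩, ?_⟩
            · rw [← h2, hu, hr]
            · apply Subtype.ext
              show s(u, p u) = s(u, v)
              rw [h2]
          · refine ⟨⟨v, fun hv => hne ?_⟩, ?_⟩
            · rw [← h2, hv, hr]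
            · apply Subtype.ext
              show s(v, p v) = s(u, v)
              rw [h2, Sym2.eq_swap]
    rw [← e]
    have h5 := Set.ncard_add_ncard_compl ({r} : Set V)
    rw [Set.ncard_singleton] at h5
    have h6 : Nat.card {v : V // v ≠ r} = ({r}ᶜ : Set V).ncard := rfl
    omega
-- END ptr

/-- the vertices: `(i, none)` on the spine, `(i, some (j, none))` the children, `(i, some (j, some k))` the leaves -/
abbrev W : Type := Fin 200 × Option (Fin 2 × Option (Fin 3))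

/-- the parent -/
def par : W → W
  | (i, none) => (⟨(i : ℕ) - 1, by omega⟩, none)
  | (i, some (_, none)) => (i, none)
  | (i, some (j, some _)) => (i, some (j, none))

/-- every spine vertex has two children, each with three leaves -/
def exG : SimpleGraph W := SimpleGraph.fromRel fun u v => par u = v

-- BEGIN ext
/-- `parent_tree` with `r = (0, none)`. -/
theorem ex_tree : exG.IsTree := by
  refine parent_tree exG (⟨0, by norm_num⟩, none) par
    (fun v => match v with
      | (i, none) => (i : ℕ)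
      | (i, some (_, none)) => (i : ℕ) + 1
      | (i, some (_, some _)) => (i : ℕ) + 2) ?_ ?_ ?_
  · rfl
  · rintro ⟨i, _ | ⟨j, _ | k⟩⟩ hv
    · have hi : (i : ℕ) ≠ 0 := by
        intro h
        apply hv
        have : i = ⟨0, by norm_num⟩ := Fin.ext h
        rw [this]
      show (i : ℕ) - 1 < i
      omega
    · show (i : ℕ) < i + 1
      omega
    · show (i : ℕ) + 1 < i + 2
      omega
  · intro u v
    exact SimpleGraph.fromRel_adj _ u v
-- END ext

-- BEGIN exs
/-- `s k = (min k 199, none)`. -/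
theorem ex_spine : IsSpine exG 199 (fun k => ((⟨min k 199, by omega⟩, none) : W)) := by
  have hadj : ∀ u v : W, exG.Adj u v ↔ u ≠ v ∧ (par u = v ∨ par v = u) :=
    fun u v => SimpleGraph.fromRel_adj _ u v
  refine ⟨fun i j hi hj h => ?_, fun i hi => ?_, fun v => ?_⟩
  · have h1 : min i 199 = min j 199 := congrArg (fun w : W => (w.1 : ℕ)) h
    omega
  · rw [hadj]
    refine ⟨fun h => ?_, Or.inr ?_⟩
    · have h1 : min i 199 = min (i + 1) 199 := congrArg (fun w : W => (w.1 : ℕ)) h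
      omega
    · refine Prod.ext (Fin.ext ?_) rfl
      show min (i + 1) 199 - 1 = min i 199
      omega
  · obtain ⟨i, o⟩ := v
    refine ⟨i, by omega, ?_⟩
    have hs : ((⟨min (i : ℕ) 199, by omega⟩, none) : W) = (i, none) :=
      Prod.ext (Fin.ext (show min (i : ℕ) 199 = i by omega)) rfl
    show (i, o) = ((⟨min (i : ℕ) 199, by omega⟩, none) : W) ∨
      exG.Adj (i, o) ((⟨min (i : ℕ) 199, by omega⟩, none) : W) ∨
      ∃ w, exG.Adj (i, o) w ∧ exG.Adj w ((⟨min (i : ℕ) 199, by omega⟩, none) : W)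
    rw [hs]
    rcases o with _ | ⟨j, _ | k⟩
    · exact Or.inl rfl
    · exact Or.inr (Or.inl ((hadj _ _).2 ⟨by simp, Or.inl rfl⟩))
    · exact Or.inr (Or.inr ⟨(i, some (j, none)), (hadj _ _).2 ⟨by simp, Or.inl rfl⟩,
        (hadj _ _).2 ⟨by simp, Or.inl rfl⟩⟩)
-- END exs

-- BEGIN exd
/-- The neighbours of `(i, none)` are `(i - 1, none)`, `(i + 1, none)`, `(i, some (j, none))`, `j = 0, 1`; the neighbours of `(i, some (j, none))` are `(i, none)` and `(i, some (j, some k))`, `k = 0, 1, 2`; otherwise one. -/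
theorem ex_deg (v : W) : (exG.neighborSet v).ncard ≤ 4 := by
  classical
  have key : ∃ a b c d : W, ∀ w, v ≠ w → (par v = w ∨ par w = v) → w = a ∨ w = b ∨ w = c ∨ w = d := by
    obtain ⟨i, _ | ⟨j, _ | k⟩⟩ := v
    · refine ⟨(⟨(i : ℕ) - 1, by omega⟩, none), (⟨min ((i : ℕ) + 1) 199, by omega⟩, none),
        (i, some (0, none)), (i, some (1, none)), ?_⟩
      rintro ⟨i', _ | ⟨j', _ | k'⟩⟩ hne (h | h)
      · exact Or.inl h.symm
      · right; left
        have h1 : (i' : ℕ) - 1 = i := congrArg (fun z : W => (z.1 : ℕ)) h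
        have h2 : (i' : ℕ) ≠ i := fun h2 => hne (by rw [Fin.ext h2])
        have h3 : i' = ⟨min ((i : ℕ) + 1) 199, by omega⟩ := Fin.ext (by
          show (i' : ℕ) = min ((i : ℕ) + 1) 199
          omega)
        rw [h3]
      · exact Or.inl h.symm
      · have h1 : i' = i := congrArg (fun z : W => z.1) h
        subst h1
        rcases (by omega : j' = 0 ∨ j' = 1) with rfl | rfl
        · exact Or.inr (Or.inr (Or.inl rfl))
        · exact Or.inr (Or.inr (Or.inr rfl))
      · exact Or.inl h.symm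
      · exact absurd (congrArg (fun z : W => z.2) h) (by simp [par])
    · refine ⟨(i, none), (i, some (j, some 0)), (i, some (j, some 1)), (i, some (j, some 2)), ?_⟩
      rintro ⟨i', _ | ⟨j', _ | k'⟩⟩ hne (h | h)
      · exact Or.inl h.symm
      · exact absurd (congrArg (fun z : W => z.2) h) (by simp [par])
      · exact Or.inl h.symm
      · exact absurd (congrArg (fun z : W => z.2) h) (by simp [par])
      · exact Or.inl h.symm
      · have h1 : i' = i := congrArg (fun z : W => z.1) h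
        have h2 : some (j', (none : Option (Fin 3))) = some (j, none) := congrArg (fun z : W => z.2) h
        have h3 : j' = j := by simpa using h2
        subst h1
        subst h3
        rcases (by omega : k' = 0 ∨ k' = 1 ∨ k' = 2) with rfl | rfl | rfl
        · exact Or.inr (Or.inl rfl)
        · exact Or.inr (Or.inr (Or.inl rfl))
        · exact Or.inr (Or.inr (Or.inr rfl))
    · refine ⟨(i, some (j, none)), (i, some (j, none)), (i, some (j, none)), (i, some (j, none)), ?_⟩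
      rintro ⟨i', _ | ⟨j', _ | k'⟩⟩ hne (h | h)
      · exact Or.inl h.symm
      · exact absurd (congrArg (fun z : W => z.2) h) (by simp [par])
      · exact Or.inl h.symm
      · exact absurd (congrArg (fun z : W => z.2) h) (by simp [par])
      · exact Or.inl h.symm
      · exact absurd (congrArg (fun z : W => z.2) h) (by simp [par])
  obtain ⟨a, b, c, d, hk⟩ := key
  have hsub : exG.neighborSet v ⊆ (({a, b, c, d} : Finset W) : Set W) := by
    intro w hw
    have h1 : v ≠ w ∧ (par v = w ∨ par w = v) := (SimpleGraph.fromRel_adj (fun u v => par u = v) v w).1 hw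
    have h2 := hk w h1.1 h1.2
    simp only [Finset.coe_insert, Finset.coe_singleton, Set.mem_insert_iff, Set.mem_singleton_iff]
    exact h2
  refine (Set.ncard_le_ncard hsub (Set.toFinite _)).trans ?_
  rw [Set.ncard_coe_finset]
  exact Finset.card_le_four
-- END exd

-- BEGIN exi
/-- membership in the independent set -/
def exi_mem : W → Bool
  | (i, none) => (i : ℕ) % 2 == 0
  | (_, some (_, none)) => false
  | (_, some (_, some _)) => true

theorem exi_card : (Finset.univ.filter (fun w : W => exi_mem w = true)).card = 1300 := by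
  rw [Finset.card_filter, Fintype.sum_prod_type]
  have h1 : ∀ i : Fin 200, (∑ o : Option (Fin 2 × Option (Fin 3)),
      if exi_mem (i, o) = true then 1 else 0) = (if (i : ℕ) % 2 = 0 then 1 else 0) + 6 := by
    intro i
    simp [Fintype.sum_option, Fintype.sum_prod_type, exi_mem]
  rw [Finset.sum_congr rfl fun i _ => h1 i, Finset.sum_add_distrib,
    Fin.sum_univ_eq_sum_range (fun i => if i % 2 = 0 then 1 else 0) 200]
  have h2 : (∑ i ∈ Finset.range 200, if i % 2 = 0 then 1 else 0) = 100 := by decide +kernel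
  rw [h2]
  simp

/-- All leaves (1200) and the spine vertices with even index (100). -/
theorem ex_indep : ∃ I : Finset W, I.card = 1300 ∧ ∀ u ∈ I, ∀ v ∈ I, ¬ exG.Adj u v := by
  have key : ∀ u v : W, exi_mem u = true → exi_mem v = true → u ≠ v → par u ≠ v := by
    rintro ⟨i, _ | ⟨j, _ | k⟩⟩ v hu hv hne he
    · have h1 : (i : ℕ) % 2 = 0 := by simpa [exi_mem] using hu
      rw [← he] at hv hne
      have h2 : ((i : ℕ) - 1) % 2 = 0 := by simpa [exi_mem, par] using hv
      have h3 : (i : ℕ) ≠ 0 := by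
        intro h4
        apply hne
        simp only [par, Prod.mk.injEq, and_true]
        apply Fin.ext
        simp [h4]
      omega
    · simp [exi_mem] at hu
    · rw [← he] at hv
      simp [exi_mem, par] at hv
  obtain ⟨I, hc, hI⟩ : ∃ I : Finset W, I.card = 1300 ∧ ∀ u ∈ I, exi_mem u = true :=
    ⟨Finset.univ.filter (fun w => exi_mem w = true), exi_card, by simp⟩
  refine ⟨I, hc, ?_⟩
  intro u hu v hv huv
  unfold exG at huv
  rw [SimpleGraph.fromRel_adj] at huv
  rcases huv with ⟨hne, h1 | h1⟩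
  · exact key u v (hI u hu) (hI v hv) hne h1
  · exact key v u (hI v hv) (hI u hu) (Ne.symm hne) h1
-- END exi

-- BEGIN exn
/-- `density` for the set of `ex_indep`: `1300 π ≤ 25 π + 3980` is false. -/
theorem ex_not : ¬ IsUnitDiskGraph exG := by
  intro h
  obtain ⟨I, hI, hind⟩ := ex_indep
  have h1 := density exG 199 _ ex_spine h I hind
  rw [hI] at h1
  have h2 := Real.pi_gt_d2
  norm_num at h1 h2
  linarith
-- END exn

-- BEGIN fin
/-- `lobster_udg`, `density`, the example. -/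
theorem main_thm :
    (∀ (V : Type) [Finite V] (G : SimpleGraph V), IsLobster G → (∀ v, (G.neighborSet v).ncard ≤ 4) →
      (∀ v, {w | G.Adj v w ∧ 2 ≤ (G.neighborSet w).ncard}.ncard ≤ 3) → IsUnitDiskGraph G) ∧
    (∀ (V : Type) (G : SimpleGraph V) (n : ℕ) (s : ℕ → V), IsSpine G n s → IsUnitDiskGraph G →
      ∀ I : Finset V, (∀ u ∈ I, ∀ v ∈ I, ¬ G.Adj u v) → Real.pi * I.card ≤ 25 * Real.pi + 20 * n) ∧
    ∃ (V : Type) (_ : Finite V) (G : SimpleGraph V), IsLobster G ∧ (∀ v, (G.neighborSet v).ncard ≤ 4) ∧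
      ¬ IsUnitDiskGraph G :=
  ⟨fun _ _ G hG h4 h3 => lobster_udg G hG h4 h3, fun _ G n s hs hG I hI => density G n s hs hG I hI,
    W, inferInstance, exG, ⟨ex_tree, 199, _, ex_spine⟩, ex_deg, ex_not⟩
-- END fin

end Pool.Agent.Lob
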